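import Pool.Agent.T9h54.FF.Spec

set_option autoImplicit false


namespace Pool.Agent.T9h56.FF

open Finset Pool.Agent.T9h54.FF Polynomial Filter Topology

/-- the denominators -/
noncomputable def DD (s : Finset ℂ) : ℂ[X] := ∏ z ∈ s, (1 - C z * X)

/-- the numerator -/
noncomputable def MM (s : Finset ℂ) (U : ℂ → ℂ) : ℂ[X] :=
  ∑ z ∈ s, C (U z) * ∏ y ∈ s.erase z, (1 - C y * X)

lemma DD_zero (s : Finset ℂ) : (DD s).eval 0 = 1 := by
  unfold DD
  rw [eval_prod]
  apply prod_eq_one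
  intro z _
  simp

lemma MM_eval (s : Finset ℂ) (U : ℂ → ℂ) (w : ℂ) (hw : ∀ z ∈ s, 1 - z * w ≠ 0) :
    (MM s U).eval w = (DD s).eval w * ∑ z ∈ s, U z / (1 - z * w) := by
  unfold MM DD
  rw [eval_finset_sum, eval_prod, mul_sum]
  refine sum_congr rfl fun z hz => ?_
  rw [eval_mul, eval_C, eval_prod, ← mul_prod_erase s _ hz]
  have h1 : eval w (1 - C z * X) = 1 - z * w := by simp
  rw [h1]
  field_simp [hw z hz]

lemma MM_zero (s : Finset ℂ) (U : ℂ → ℂ) (hs : ∀ z ∈ s, ‖z‖ = 1) (h : MM s U = 0) :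
    ∀ z ∈ s, U z = 0 := by
  intro z hz
  have hz0 : z ≠ 0 := by
    intro h0
    have := hs z hz
    rw [h0, norm_zero] at this
    exact zero_ne_one this
  have h1 : (MM s U).eval z⁻¹ = 0 := by rw [h, eval_zero]
  unfold MM at h1
  rw [eval_finset_sum, sum_eq_single z] at h1
  · rw [eval_mul, eval_C, eval_prod] at h1
    rcases mul_eq_zero.1 h1 with h2 | h2
    · exact h2
    · exfalso
      rw [prod_eq_zero_iff] at h2
      obtain ⟨y, hy, hy'⟩ := h2
      have h3 : (1 : ℂ) - y * z⁻¹ = 0 := by simpa using hy'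
      apply (mem_erase.1 hy).1
      have h4 : y * z⁻¹ = 1 := by linear_combination -h3
      calc y = y * z⁻¹ * z := by rw [mul_assoc, inv_mul_cancel₀ hz0, mul_one]
        _ = z := by rw [h4, one_mul]
  · intro y _ hyz
    rw [eval_mul, eval_prod]
    have : ∏ j ∈ s.erase y, eval z⁻¹ (1 - C j * X) = 0 := by
      apply prod_eq_zero (mem_erase.2 ⟨hyz.symm, hz⟩)
      simp [hz0]
    rw [this, mul_zero]
  · intro h2
    exact absurd hz h2

lemma hf_eq (z : ℂ) (P : ℕ) (ρ : ℂ) (hz : z ≠ 0) (h : 1 - z * (P : ℂ) ^ (-ρ) ≠ 0) :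
    hf z P ρ = -(z⁻¹ + (P : ℂ) * (P : ℂ) ^ (-ρ) * (1 / (1 - z * (P : ℂ) ^ (-ρ)))) := by
  unfold hf
  field_simp
  ring

/-- (ALG) -/
theorem alg : S_ALG := by
  intro ρ hρ hρ1 s U hs S hS hrel
  apply MM_zero s U hs
  by_contra hM
  -- the filter
  have hfr : ∃ᶠ n in atTop, n ∈ S := Nat.frequently_atTop_iff_infinite.2 hS
  haveI hne : (atTop ⊓ 𝓟 S : Filter ℕ).NeBot := frequently_mem_iff_neBot.1 hfr
  set l : Filter ℕ := atTop ⊓ 𝓟 S with hl
  have hla : l ≤ atTop := inf_le_left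
  have hlS : ∀ᶠ P in l, P ∈ S := by
    rw [hl, eventually_inf_principal]
    exact Eventually.of_forall fun _ h => h
  have hnat : Tendsto (fun P : ℕ => (P : ℝ)) l atTop := tendsto_natCast_atTop_atTop.mono_left hla
  let w : ℕ → ℂ := fun P => (P : ℂ) ^ (-ρ)
  have hpos : ∀ᶠ P : ℕ in l, 2 ≤ P := hla (eventually_ge_atTop 2)
  have hnw : ∀ P : ℕ, 2 ≤ P → ‖w P‖ = (P : ℝ) ^ (-ρ.re) := by
    intro P hP
    have := Complex.norm_natCast_cpow_of_pos (n := P) (by omega) (-ρ)
    rw [Complex.neg_re] at this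
    exact this
  have hwt : Tendsto w l (𝓝 0) := by
    rw [tendsto_zero_iff_norm_tendsto_zero]
    have h1 : Tendsto (fun P : ℕ => (P : ℝ) ^ (-ρ.re)) l (𝓝 0) :=
      (tendsto_rpow_neg_atTop (by linarith)).comp hnat
    refine h1.congr' ?_
    filter_upwards [hpos] with P hP
    rw [hnw P hP]
  have hlt : ∀ P : ℕ, 2 ≤ P → ‖w P‖ < 1 := by
    intro P hP
    rw [hnw P hP]
    apply Real.rpow_lt_one_of_one_lt_of_neg
    · exact_mod_cast (by omega : 1 < P)
    · linarith
  have hw0 : ∀ P : ℕ, 2 ≤ P → w P ≠ 0 := by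
    intro P hP h0
    have h1 := hnw P hP
    rw [h0, norm_zero] at h1
    have h2 : (0 : ℝ) < (P : ℝ) ^ (-ρ.re) :=
      Real.rpow_pos_of_pos (by exact_mod_cast (by omega : 0 < P)) _
    linarith
  have hz0 : ∀ z ∈ s, z ≠ 0 := by
    intro z hz h0
    have := hs z hz
    rw [h0, norm_zero] at this
    exact zero_ne_one this
  have hden : ∀ P : ℕ, 2 ≤ P → ∀ z ∈ s, 1 - z * w P ≠ 0 := by
    intro P hP z hz h0
    have h1 : z * w P = 1 := by linear_combination -h0
    have h2 : ‖z * w P‖ = 1 := by rw [h1, norm_one]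
    rw [norm_mul, hs z hz, one_mul] at h2
    have := hlt P hP
    linarith
  -- the relation
  let κ : ℂ := ∑ z ∈ s, U z * z⁻¹
  have hrel' : ∀ P : ℕ, 2 ≤ P → P ∈ S →
      κ * (DD s).eval (w P) = -((P : ℂ) * w P * (MM s U).eval (w P)) := by
    intro P hP hPS
    have h1 := hrel P hPS
    have h2 : ∑ z ∈ s, U z * hf z P ρ =
        -(κ + (P : ℂ) * w P * ∑ z ∈ s, U z / (1 - z * w P)) := by
      rw [mul_sum, ← sum_add_distrib, ← sum_neg_distrib]
      refine sum_congr rfl fun z hz => ?_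
      rw [hf_eq z P ρ (hz0 z hz) (hden P hP z hz)]
      show U z * -(z⁻¹ + (P : ℂ) * w P * (1 / (1 - z * w P))) = _
      ring
    rw [h2] at h1
    rw [MM_eval s U (w P) (hden P hP)]
    linear_combination (-(DD s).eval (w P)) * h1
  -- the trailing part
  obtain ⟨M1, hM1, hM1'⟩ := exists_eq_pow_rootMultiplicity_mul_and_not_dvd (MM s U) hM 0
  rw [dvd_iff_isRoot, IsRoot.def] at hM1'
  generalize rootMultiplicity 0 (MM s U) = k at hM1
  have hMk : ∀ x : ℂ, (MM s U).eval x = x ^ k * M1.eval x := by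
    intro x
    rw [hM1, eval_mul, eval_pow, eval_sub, eval_X, eval_C, sub_zero]
  have hDt : Tendsto (fun P => (DD s).eval (w P)) l (𝓝 1) := by
    have h1 : Tendsto (fun x : ℂ => (DD s).eval x) (𝓝 0) (𝓝 ((DD s).eval 0)) :=
      (DD s).continuous.tendsto 0
    rw [DD_zero] at h1
    exact h1.comp hwt
  have hMt : Tendsto (fun P => M1.eval (w P)) l (𝓝 (M1.eval 0)) :=
    (M1.continuous.tendsto 0).comp hwt
  apply hM1'
  rcases Nat.eq_zero_or_pos k with hk | hk
  · -- the case k = 0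
    have h1 : Tendsto (fun P : ℕ => -κ * (DD s).eval (w P) * ((P : ℂ) * w P)⁻¹) l (𝓝 0) := by
      have h2 : Tendsto (fun P : ℕ => ((P : ℂ) * w P)⁻¹) l (𝓝 0) := by
        rw [tendsto_zero_iff_norm_tendsto_zero]
        have h3 : Tendsto (fun P : ℕ => (P : ℝ) ^ (-(1 - ρ.re))) l (𝓝 0) :=
          (tendsto_rpow_neg_atTop (by linarith)).comp hnat
        refine h3.congr' ?_
        filter_upwards [hpos] with P hP
        have hP0 : (0 : ℝ) < P := by exact_mod_cast (by omega : 0 < P)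
        rw [norm_inv, norm_mul, hnw P hP, Complex.norm_natCast, Real.rpow_neg hP0.le]
        congr 1
        rw [show (1 - ρ.re) = 1 + (-ρ.re) by ring, Real.rpow_add hP0, Real.rpow_one]
      have h4 := (tendsto_const_nhds (x := -κ)).mul hDt
      have h5 := h4.mul h2
      rwa [mul_zero] at h5
    have h6 : Tendsto (fun P => M1.eval (w P)) l (𝓝 0) := by
      refine h1.congr' ?_
      filter_upwards [hpos, hlS] with P hP hPS
      have h7 := hrel' P hP hPS
      rw [hMk, hk, pow_zero, one_mul] at h7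
      have hP0 : (P : ℂ) ≠ 0 := by exact_mod_cast (by omega : P ≠ 0)
      have h8 := hw0 P hP
      have h9 : -κ * (DD s).eval (w P) = (P : ℂ) * w P * M1.eval (w P) := by
        linear_combination -h7
      rw [h9]
      field_simp
    exact tendsto_nhds_unique hMt h6
  · -- the case k ≥ 1
    have h2 : Tendsto (fun P : ℕ => (P : ℂ) * w P * w P ^ k) l (𝓝 0) := by
      rw [tendsto_zero_iff_norm_tendsto_zero]
      have h3 : Tendsto (fun P : ℕ => (P : ℝ) ^ (-(2 * ρ.re - 1))) l (𝓝 0) :=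
        (tendsto_rpow_neg_atTop (by linarith)).comp hnat
      refine squeeze_zero' (Eventually.of_forall fun _ => norm_nonneg _) ?_ h3
      filter_upwards [hpos] with P hP
      have hP0 : (0 : ℝ) < P := by exact_mod_cast (by omega : 0 < P)
      rw [norm_mul, norm_mul, norm_pow, Complex.norm_natCast]
      have h4 : ‖w P‖ ^ k ≤ ‖w P‖ ^ 1 := pow_le_pow_of_le_one (norm_nonneg _) (hlt P hP).le hk
      rw [pow_one] at h4
      calc (P : ℝ) * ‖w P‖ * ‖w P‖ ^ k ≤ (P : ℝ) * ‖w P‖ * ‖w P‖ := by gcongr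
        _ = (P : ℝ) ^ (-(2 * ρ.re - 1)) := by
          rw [hnw P hP, show -(2 * ρ.re - 1) = 1 + (-ρ.re) + (-ρ.re) by ring,
            Real.rpow_add hP0, Real.rpow_add hP0, Real.rpow_one]
    have hκ : κ = 0 := by
      have h4 : Tendsto (fun P => κ * (DD s).eval (w P)) l (𝓝 (κ * 1)) :=
        tendsto_const_nhds.mul hDt
      have h5 : Tendsto (fun P => κ * (DD s).eval (w P)) l (𝓝 0) := by
        have h6 : Tendsto (fun P : ℕ => -((P : ℂ) * w P * w P ^ k * M1.eval (w P))) l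
            (𝓝 (-(0 * M1.eval 0))) := (h2.mul hMt).neg
        rw [zero_mul, neg_zero] at h6
        refine h6.congr' ?_
        filter_upwards [hpos, hlS] with P hP hPS
        rw [hrel' P hP hPS, hMk]
        ring
      have h6 := tendsto_nhds_unique h4 h5
      rwa [mul_one] at h6
    have h6 : Tendsto (fun P => M1.eval (w P)) l (𝓝 0) := by
      refine (tendsto_const_nhds (x := (0 : ℂ))).congr' ?_
      filter_upwards [hpos, hlS] with P hP hPS
      have h7 := hrel' P hP hPS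
      rw [hκ, zero_mul, hMk] at h7
      have hP0 : (P : ℂ) ≠ 0 := by exact_mod_cast (by omega : P ≠ 0)
      have h8 := hw0 P hP
      have h9 : (P : ℂ) * w P * w P ^ k * M1.eval (w P) = 0 := by
        linear_combination h7
      have h10 : (P : ℂ) * w P * w P ^ k ≠ 0 := mul_ne_zero (mul_ne_zero hP0 h8) (pow_ne_zero _ h8)
      exact ((mul_eq_zero.1 h9).resolve_left h10).symm
    exact tendsto_nhds_unique hMt h6

end Pool.Agent.T9h56.FF
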